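import Mathlib
import Pool.Agent.Z15.MG.All3

/-!
# The moduli spaces of endomorphisms of `P^N` of degree `d` are rational if `d - 1` and `N + 1` are coprime

Problem: for all `N ≥ 1`, `d ≥ 2`, is the moduli space `M^N_d = End^N_d / PGL_{N+1}` of the endomorphisms of `P^N` of degree `d`
rational?

We prove it for all `N ≥ 2`, `d ≥ 3` such that `d - 1` and `N + 1` are coprime. (The case `d = 2` is a starting file.)

A self map of degree `d` in `N + 1` variables (`N + 1` forms of degree `d`) is given by its coefficients
`c : Fin (N + 1) × Mon (N + 1) d → K`, where `Mon (N + 1) d` is the set of the monomials of degree `d`; its components are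
`cmp c k = ∑ α, c (k, α) x^α`. A matrix `g ∈ GL_{N+1}(K)` (a pair `g`, `g⁻¹`, `GP N K`) acts by `f ↦ g f g⁻¹` (`act g g⁻¹`). So
`fixedBy (substF d)` is the field of the rational functions in the coefficients which are invariant under conjugation by
`GL_{N+1}(K)`. The scalar `s` acts by multiplication with `s^(1-d)`; so over an algebraically closed field the invariant functions
are homogeneous of degree `0` and invariant under `PGL_{N+1}`, and they form the field of rational functions of `M^N_d`.

Method for `d ≥ 4`. Let `n = N + 1`, `m = d - 1`. The centre of `GL_n` acts through `GL_n / μ_m`, and if `n`, `m` are coprime this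
group is special. We make this explicit. The space `V` of the self maps is the sum of the spaces `V_2` (divergence zero) and `V_1`
(`f = F(x) x`, `F` of degree `m`).

1. A generic `f` in `V_2` has `n` linearly independent fixed vectors over an algebraic closure of `K(f)` (they form a matrix `B`
which is generic, and so is `B⁻¹ f B`), and its stabiliser in `GL_n` is `μ_m`: the traces of the squares of the derivatives at two
independent fixed vectors are different.

2. Let `m` divide `n a + 1`. Traces from the field of `B` to the field `K(f)` of the entries of `det(B)^a B ⊗ (B⁻¹ v)`,
`v ∈ V_1`, give covariant linear forms in `v` with coefficients in `K(f)`, `f ∈ V_2`: a matrix `C` which transforms as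
`det(g)^a g`, and a scalar `h` which transforms as `det(g)^m`. As the stabiliser of `f` is `μ_m`, they span everything; so
there are a matrix `C` and a scalar `h` with `n² + 1` linearly independent components (`dim V_1 ≥ n² + 1` as `d ≥ 4`).

3. The linear slice `C = diag(t, 1, …, 1)`, `h = 1` meets the generic orbit in one point, and it is a bundle of affine spaces
over an open subset of `V_2`. So the invariant field is purely transcendental.

Method for `d = 3`, `n` odd (here `dim V_1 < n²`). Let `H` be the Hessian matrix of the divergence of `f` (a quadratic form),
`A = ∑ (H⁻¹)_kl ∂_k ∂_l ∂_j f_i` (a matrix), `Ω = H A - Aᵀ H` (alternating). As `n` is odd, `Ω` has a kernel vector `w`, and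
`F = (w, A w, …, A^N w)` is a frame which transforms as `g` up to a scalar. So `u = F⁻¹ f F`, normalised by `H(u)_00 = 1`, is
invariant and generates the invariant field, and the relations for the coefficients of `u` can be solved: `A(u)` is a companion
matrix, `Ω(u) e_0 = 0` gives linear relations between the entries of `H(u)`, and for given `H(u)`, `A(u)` the other relations are
linear.

The parts of the proof (`Pool/Agent/Z15/ME/T_*.lean` for `d ≥ 4`, `Pool/Agent/T2h8/R3/T_*.lean` for `d = 3`) were written by many
members of the team (see `departures`).
-/

set_option autoImplicit false

namespace Pool.Agent.Results.MP_82c165_ag.AllCoprimeDegrees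

open MvPolynomial Pool.Agent.Z15.ME

/-- The action `P ↦ P(g f g⁻¹)` on the field of the rational functions in the coefficients of a self map `f` of degree `d` in
`N + 1` variables. -/
noncomputable def substF {K : Type} [Field K] {N : ℕ} (d : ℕ) (g : GP N K) :
    FractionRing (MvPolynomial (Fin (N + 1) × Mon (N + 1) d) K) →ₐ[K]
      FractionRing (MvPolynomial (Fin (N + 1) × Mon (N + 1) d) K) :=
  extF (subst d g) (subst_injective pACT d g)

/-- The field of the rational functions in the coefficients of a self map of degree `d` in `N + 1` variables which are
invariant under all linear changes of coordinates. For `K = ℂ` it is the field of rational functions of `M^N_d`. -/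
noncomputable def invField (K : Type) [Field K] (N d : ℕ) :
    IntermediateField K (FractionRing (MvPolynomial (Fin (N + 1) × Mon (N + 1) d) K)) :=
  fixedBy fun g : GP N K => substF d g

/-- **The moduli space of the endomorphisms of `P^N` of degree `d` is rational**, for all `N ≥ 2`, `d ≥ 3` such that `d - 1` and
`N + 1` are coprime: the field of the rational functions in the coefficients of a self map which are invariant under all linear
changes of coordinates is purely transcendental. -/
theorem result {K : Type} [Field K] [CharZero K] {N d : ℕ} (hN : 2 ≤ N) (hd : 3 ≤ d) (h : Nat.Coprime (d - 1) (N + 1)) :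
    IsRational (invField K N d) := by
  obtain ⟨m, rfl⟩ : ∃ m, d = m + 1 := ⟨d - 1, by omega⟩
  rcases Nat.lt_or_ge m 3 with hm | hm
  · have hm2 : m = 2 := by omega
    subst hm2
    have hev : Even N := by
      have h2 : Nat.Coprime 2 (N + 1) := h
      rw [Nat.coprime_two_left] at h2
      rcases Nat.even_or_odd N with h3 | h3
      · exact h3
      · exact absurd (h3.add_one) (Nat.not_even_iff_odd.2 h2)
    exact Pool.Agent.Z15.MG.main3 pACT Pool.Agent.Z15.MG.qRAT hN hev
  · exact main pACT pRAT pFIN hN hm h

end Pool.Agent.Results.MP_82c165_ag.AllCoprimeDegrees
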