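import Mathlib
import Pool.Agent.Z15.MG.All3
import Pool.Agent.Z15.MH.All4
import Pool.Agent.Z15.MI.All5

/-!
# The moduli spaces of endomorphisms of the plane of degree `d ≥ 3` are rational

Problem: for all `N ≥ 1`, `d ≥ 2`, is the moduli space `M^N_d = End^N_d / PGL_{N+1}` of the endomorphisms of `P^N` of degree `d`
rational?

We prove it for `N = 2` and all `d ≥ 3`. As `d = 2` is in a starting file (and `N = 1` is a theorem of Levy), the case `N = 2` of the
problem is complete.

A self map of degree `d` in `N + 1` variables (`N + 1` forms of degree `d`) is given by its coefficients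
`c : Fin (N + 1) × Mon (N + 1) d → K`, where `Mon (N + 1) d` is the set of the monomials of degree `d`; its components are
`cmp c k = ∑ α, c (k, α) x^α`. A matrix `g ∈ GL_{N+1}(K)` (a pair `g`, `g⁻¹`, `GP N K`) acts by `f ↦ g f g⁻¹` (`act g g⁻¹`). So
`fixedBy (substF d)` is the field of the rational functions in the coefficients which are invariant under conjugation by
`GL_{N+1}(K)`. The scalar `s` acts by multiplication with `s^(1-d)`; so over an algebraically closed field the invariant functions
are homogeneous of degree `0` and invariant under `PGL_{N+1}`, and they form the field of rational functions of `M^N_d`.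

Method. If `3` does not divide `d - 1`, this is a case of `AllCoprimeDegrees`. Let `d = 3 k + 1`. The group `GL_3` acts through
`GL_3 / μ_{3k}`, and this group is not special: the moduli space is stably birational to the centre of the generic division algebra
of degree `3`. That centre (the invariants of two `3 × 3` matrices) is rational by a theorem of Formanek (1979), and we combine
explicit forms of this theorem and of the no-name lemma. The space `V` of the self maps is the sum of the spaces `V_2` (divergence
zero) and `V_1` (`f = F(x) x`, `F` of degree `3 k`).

1. `k ≥ 2`. By a descent argument (traces from the field of `B` to the field `K(f)`, where the columns of `B` are fixed vectors of the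
generic `f ∈ V_2`; the stabiliser of `f` is `μ_{3k}`) there are covariant linear forms on `V_1`, with coefficients in `K(f)`,
`f ∈ V_2`: two matrices `X`, `Y` which transform by conjugation, a scalar `H` which transforms as `det^k`, and invariants `Z`,
`19 + r = dim V_1` of them and linearly independent (`dim V_1 ≥ 28`). So `K(V) = K(f, X, Y, H, Z)`, with `f ∈ V_2`.

2. `k = 1`. Here `dim V_1 = 10` is too small, and the generic cubic `F` has a stabiliser of order 18. But there are two covariant
matrices `XX F f`, `YY F f`, linear in `f ∈ V_2`, of degree 2 and 3 in `F`, of weight 3 and 4, with trace zero, and they are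
independent (they are so at the Fermat cubic). `Δ = tr(XX YY)/tr(XX XX)` has weight 1, so `X = XX/Δ³`, `Y = YY/Δ⁴` transform by
conjugation and `H = 1/Δ` as `det`.

3. Let `l_0, l_1, l_2` be the eigenvalues of `X` and `B` the matrix of the eigenvectors normalised by `(B⁻¹ Y B)_10 =
(B⁻¹ Y B)_20 = 1`, `det(B)^k = H`. Then `B` is unique up to a root of unity of order `3 k`, so `Y' = B⁻¹ Y B` and
`f' = B⁻¹ f B` are in `K(V)(l)`, a Galois extension with group `S_3`, and the invariant field is contained in `K(l, Y', f', Z)`. By
Galois descent (Hilbert 90 for vector spaces; for `k = 1` first for the divergence of `f'` and then for `f'`, with the linear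
relations `XX = diag(l)`, `YY = Y'`) `f'` can be replaced by elements of the invariant field, and the invariants in `K(l, Y')` form a
purely transcendental extension (Formanek's generators).

The parts of the proof (`Pool/Agent/Z15/ME/T_*.lean`, `MH/T_*.lean`, `MI/T_*.lean`) were written by many members of the team (see
`departures`).
-/

set_option autoImplicit false

namespace Pool.Agent.Results.MP_82c165_ag.PlaneMaps

open MvPolynomial Pool.Agent.Z15.ME

/-- The action `P ↦ P(g f g⁻¹)` on the field of the rational functions in the coefficients of a self map `f` of degree `d` in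
`N + 1` variables. -/
noncomputable def substF {K : Type} [Field K] {N : ℕ} (d : ℕ) (g : GP N K) :
    FractionRing (MvPolynomial (Fin (N + 1) × Mon (N + 1) d) K) →ₐ[K]
      FractionRing (MvPolynomial (Fin (N + 1) × Mon (N + 1) d) K) :=
  extF (subst d g) (subst_injective pACT d g)

/-- The field of the rational functions in the coefficients of a self map of degree `d` in `N + 1` variables which are
invariant under all linear changes of coordinates. For `K = ℂ` it is the field of rational functions of `M^N_d`. -/
noncomputable def invField (K : Type) [Field K] (N d : ℕ) :
    IntermediateField K (FractionRing (MvPolynomial (Fin (N + 1) × Mon (N + 1) d) K)) :=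
  fixedBy fun g : GP N K => substF d g

/-- **The moduli space of the endomorphisms of the plane of degree `d` is rational**, for all `d ≥ 3`: the field of the rational
functions in the coefficients of a self map of the plane which are invariant under all linear changes of coordinates is purely
transcendental. -/
theorem result {K : Type} [Field K] [CharZero K] {d : ℕ} (hd : 3 ≤ d) : IsRational (invField K 2 d) := by
  by_cases h : d % 3 = 1
  · obtain ⟨k, hk, rfl⟩ : ∃ k, 1 ≤ k ∧ d = 3 * k + 1 := ⟨d / 3, by omega, by omega⟩
    rcases Nat.lt_or_ge k 2 with h1 | h1
    · obtain rfl : k = 1 := by omega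
      exact Pool.Agent.Z15.MI.main5 pACT Pool.Agent.Z15.MI.pNR4 Pool.Agent.Z15.MI.pRA4
    · exact Pool.Agent.Z15.MH.main4 pACT Pool.Agent.Z15.MH.pFIZ Pool.Agent.Z15.MH.pRAZ h1
  · obtain ⟨m, rfl⟩ : ∃ m, d = m + 1 := ⟨d - 1, by omega⟩
    have hc : Nat.Coprime m (2 + 1) := by
      have h3 : ¬ 3 ∣ m := by omega
      exact ((Nat.Prime.coprime_iff_not_dvd Nat.prime_three).2 h3).symm
    rcases Nat.lt_or_ge m 3 with hm | hm
    · obtain rfl : m = 2 := by omega
      exact Pool.Agent.Z15.MG.main3 pACT Pool.Agent.Z15.MG.qRAT le_rfl ⟨1, rfl⟩
    · exact main pACT pRAT pFIN le_rfl hm hc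

end Pool.Agent.Results.MP_82c165_ag.PlaneMaps
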